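import Pool.Agent.helper74.FD.SpecG

/-!
# fd:CTF: smooth cut-offs for the sets of points which avoid an open set for a long time
-/

set_option autoImplicit false

open scoped MatrixGroups ContDiff Topology UpperHalfPlane ComplexConjugate
open UpperHalfPlane MeasureTheory Filter Set

namespace Pool.Agent.FD

open Pool.Agent.RS Pool.Agent.MS
open Pool.Agent.EN (XG MG mkX mkM fl pr)

theorem CTF_proof (hGLC : RS.GLC_stmt) (hURY : URY_stmt) : CTF_stmt := by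
  intro Γ θ n hΓ hθ hn
  obtain ⟨_, _, _, haM, _⟩ := hGLC
  obtain ⟨⟨hc, hi⟩, _, _, _⟩ := hθ
  have hinv : ∀ (γ : Γ) (g : SL(2, ℝ)) (t : ℝ), θ ((γ : SL(2, ℝ)) * g * aM t) = θ (g * aM t) := fun γ g t => by
    rw [mul_assoc]
    exact hi γ (g * aM t)
  obtain ⟨C1, hC1⟩ : ∃ C1 : Set SL(2, ℝ), C1 = {g | ∀ t ∈ Icc (0 : ℝ) n, θ (g * aM t) ≤ 1 / 4} := ⟨_, rfl⟩
  obtain ⟨C2, hC2⟩ : ∃ C2 : Set SL(2, ℝ), C2 = {g | ∃ t ∈ Icc (0 : ℝ) n, 1 / 2 ≤ θ (g * aM t)} := ⟨_, rfl⟩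
  have c1 : IsClosed C1 := by
    have e : C1 = ⋂ t ∈ Icc (0 : ℝ) n, {g | θ (g * aM t) ≤ 1 / 4} := by
      rw [hC1]
      ext g
      simp only [mem_setOf_eq, mem_iInter]
    rw [e]
    refine isClosed_biInter fun t _ => isClosed_le ?_ continuous_const
    exact hc.comp (continuous_id.mul continuous_const)
  have c2 : IsClosed C2 := by
    have e : C2 = Prod.snd '' {q : ↥(Icc (0 : ℝ) n) × SL(2, ℝ) | 1 / 2 ≤ θ (q.2 * aM (q.1 : ℝ))} := by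
      rw [hC2]
      ext g
      constructor
      · rintro ⟨t, ht, h⟩
        exact ⟨(⟨t, ht⟩, g), h, rfl⟩
      · rintro ⟨⟨⟨t, ht⟩, g'⟩, h, rfl⟩
        exact ⟨t, ht, h⟩
    rw [e]
    refine isClosedMap_snd_of_compactSpace _ (isClosed_le continuous_const ?_)
    exact hc.comp (continuous_snd.mul (haM.comp (continuous_subtype_val.comp continuous_fst)))
  have hd : Disjoint C1 C2 := by
    rw [Set.disjoint_left]
    intro g h1 h2
    rw [hC1] at h1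
    rw [hC2] at h2
    obtain ⟨t, ht, h3⟩ := h2
    have h4 := h1 t ht
    linarith
  have i1 : ∀ (γ : Γ) (g : SL(2, ℝ)), (γ : SL(2, ℝ)) * g ∈ C1 ↔ g ∈ C1 := by
    intro γ g
    rw [hC1]
    simp only [mem_setOf_eq, hinv]
  have i2 : ∀ (γ : Γ) (g : SL(2, ℝ)), (γ : SL(2, ℝ)) * g ∈ C2 ↔ g ∈ C2 := by
    intro γ g
    rw [hC2]
    simp only [mem_setOf_eq, hinv]
  obtain ⟨Ψ, Ψa, Ψn, Ψl, C, h1, h2, h3, h4, h5, h6, h7⟩ := hURY Γ C1 C2 hΓ c1 c2 hd i1 i2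
  refine ⟨Ψ, Ψa, Ψn, Ψl, C, h1, h2, h3, h4, h5, fun g hg => h6 g ?_, fun g hg t ht => ?_⟩
  · rw [hC1]
    exact hg
  · by_contra h
    push Not at h
    refine hg (h7 g ?_)
    rw [hC2]
    exact ⟨t, ht, h⟩

end Pool.Agent.FD
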