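import Pool.Agent.helper74.FD.SpecF

/-!
# fd:QUP: Plancherel for the Cauchy transform on a horizontal line
-/

set_option autoImplicit false

open MeasureTheory Filter Set
open scoped ContDiff Topology ComplexConjugate

namespace Pool.Agent.FD

/-- the function on the half line -/
noncomputable def QUP_G (m : ℝ → ℂ) : ℝ → ℂ := (Ioi (0 : ℝ)).indicator fun s => fti m s * Complex.exp ((-(512 * Real.pi * s) : ℝ) : ℂ)

theorem QUP_fti (hHUP : HUP_stmt) (m : ℝ → ℂ) (h1 : Continuous m) (h2 : HasCompactSupport m) (h3 : ∫ ξ, ‖m ξ‖ * (1 + |ξ|) ≤ 1) (x : ℝ) :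
    fti (QUP_G m) x = Hf m (x + 256 * Complex.I) := by
  have h4 := (hHUP m h1 h2 h3).1 (x + 256 * Complex.I) (by simp)
  rw [h4]
  unfold fti QUP_G
  rw [← integral_indicator measurableSet_Ioi]
  refine integral_congr_ae (Eventually.of_forall fun s => ?_)
  simp only [indicator]
  split_ifs with hs
  · rw [mul_assoc, ← Complex.exp_add]
    congr 2
    push_cast
    have hI : Complex.I * Complex.I = -1 := Complex.I_mul_I
    linear_combination (512 * (Real.pi : ℂ) * (s : ℂ)) * (-hI)
  · rw [zero_mul]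

theorem QUP_norm (m : ℝ → ℂ) (s : ℝ) : ‖QUP_G m s‖ = (Ioi (0 : ℝ)).indicator (fun s => ‖fti m s‖ * Real.exp (-(512 * Real.pi * s))) s := by
  unfold QUP_G
  rw [norm_indicator_eq_indicator_norm]
  simp only [indicator]
  split_ifs
  · rw [norm_mul, Complex.norm_exp_ofReal]
  · rfl

theorem QUP_proof (hFT0 : FT0_stmt) (hHUP : HUP_stmt) : QUP_stmt := by
  intro m h1 h2 h3
  have hm : Integrable m := h1.integrable_of_hasCompactSupport h2
  obtain ⟨f1, _, _, _, f5⟩ := hFT0
  obtain ⟨_, hc, _, hb⟩ := f1 m hm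
  have hm1 : ∫ ξ, ‖m ξ‖ ≤ 1 := by
    refine le_trans ?_ h3
    refine integral_mono hm.norm ?_ ?_
    · have hcs : HasCompactSupport fun ξ : ℝ => ‖m ξ‖ * (1 + |ξ|) := h2.norm.mul_right
      exact (h1.norm.mul (by fun_prop)).integrable_of_hasCompactSupport hcs
    · intro ξ
      have h4 := norm_nonneg (m ξ)
      have h5 := abs_nonneg ξ
      show ‖m ξ‖ ≤ ‖m ξ‖ * (1 + |ξ|)
      nlinarith
  have hb1 : ∀ s, ‖fti m s‖ ≤ 1 := fun s => (hb s).trans hm1
  have hpi := Real.pi_pos
  -- the dominating function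
  have hD : Integrable ((Ioi (0 : ℝ)).indicator fun s => Real.exp (-(512 * Real.pi * s))) := by
    rw [integrable_indicator_iff measurableSet_Ioi]
    have h4 := integrableOn_exp_mul_Ioi (a := -(512 * Real.pi)) (by linarith) 0
    refine h4.congr_fun (fun s _ => ?_) measurableSet_Ioi
    show Real.exp (-(512 * Real.pi) * s) = Real.exp (-(512 * Real.pi * s))
    congr 1
    ring
  have hGm : AEStronglyMeasurable (QUP_G m) volume := by
    unfold QUP_G
    refine AEStronglyMeasurable.indicator ?_ measurableSet_Ioi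
    exact (hc.mul (by fun_prop)).aestronglyMeasurable
  have hGi : Integrable (QUP_G m) := by
    refine hD.mono' hGm (Eventually.of_forall fun s => ?_)
    rw [QUP_norm]
    simp only [indicator]
    split_ifs
    · have := hb1 s
      have := Real.exp_pos (-(512 * Real.pi * s))
      nlinarith
    · exact le_rfl
  have hG1 : ∀ s, ‖QUP_G m s‖ ≤ 1 := by
    intro s
    rw [QUP_norm]
    simp only [indicator]
    split_ifs with hs
    · have h4 := hb1 s
      have h5 : Real.exp (-(512 * Real.pi * s)) ≤ 1 := by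
        rw [Real.exp_le_one_iff]
        have : 0 < s := hs
        have : 0 < 512 * Real.pi * s := by positivity
        linarith
      have h6 := norm_nonneg (fti m s)
      calc ‖fti m s‖ * Real.exp (-(512 * Real.pi * s)) ≤ 1 * 1 := mul_le_mul h4 h5 (Real.exp_pos _).le (by norm_num)
        _ = 1 := one_mul 1
    · norm_num
  have hG2i : Integrable fun s => ‖QUP_G m s‖ ^ 2 := by
    refine hGi.norm.mono' (hGm.norm.pow 2) (Eventually.of_forall fun s => ?_)
    rw [Real.norm_of_nonneg (by positivity)]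
    have h4 := hG1 s
    have h5 := norm_nonneg (QUP_G m s)
    nlinarith
  have hG2 : MemLp (QUP_G m) 2 := by
    rw [memLp_two_iff_integrable_sq_norm hGm]
    exact hG2i
  obtain ⟨_, _, g3, g4⟩ := f5 _ hGi hG2
  have e : (fun x : ℝ => ‖fti (QUP_G m) x‖ ^ 2) = fun x : ℝ => ‖Hf m (x + 256 * Complex.I)‖ ^ 2 := by
    funext x
    rw [QUP_fti hHUP m h1 h2 h3]
  rw [e] at g3 g4
  refine ⟨g3, ?_⟩
  rw [g4]
  have h5 : ∫ s in Ioc (0 : ℝ) 2, ‖QUP_G m s‖ ^ 2 ≤ ∫ s, ‖QUP_G m s‖ ^ 2 :=
    setIntegral_le_integral hG2i (Eventually.of_forall fun s => by positivity)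
  have h6 : ∫ s in Ioc (0 : ℝ) 2, ‖fti m s‖ ^ 2 ≤ Real.exp (2048 * Real.pi) * ∫ s in Ioc (0 : ℝ) 2, ‖QUP_G m s‖ ^ 2 := by
    rw [← integral_const_mul]
    refine setIntegral_mono_on ?_ ?_ measurableSet_Ioc ?_
    · exact ((hc.norm.pow 2).continuousOn.integrableOn_Icc).mono_set Ioc_subset_Icc_self
    · exact (hG2i.const_mul _).integrableOn
    · intro s hs
      have h7 : s ∈ Ioi (0 : ℝ) := hs.1
      rw [QUP_norm, indicator_of_mem h7, mul_pow, ← Real.exp_nat_mul, mul_left_comm, ← Real.exp_add]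
      have h8 : 0 ≤ ‖fti m s‖ ^ 2 := by positivity
      have h9 : 1 ≤ Real.exp (2048 * Real.pi + (2 : ℕ) * -(512 * Real.pi * s)) := by
        apply Real.one_le_exp
        have : s ≤ 2 := hs.2
        push_cast
        nlinarith
      nlinarith
  rw [intervalIntegral.integral_of_le (by norm_num)]
  refine h6.trans ?_
  exact mul_le_mul_of_nonneg_left h5 (Real.exp_pos _).le

end Pool.Agent.FD
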